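import Pool.Agent.helper12.DD.Spec2

/-!
# Project dw: EXC, the extension of `χ ⊗ ... ⊗ χ` to the wreath product
-/

set_option autoImplicit false

open Pool.Agent.helper49.Blk

namespace Pool.Agent.DD

theorem EXC_tpow_one {G : Type} [Group G] (Q : Type) [Fintype Q] (χ : G → ℂ) :
    tpow Q χ (1 : Q → G) = χ 1 ^ Nat.card Q := by
  unfold tpow
  simp only [Pi.one_apply]
  rw [Finset.prod_const, Finset.card_univ, Nat.card_eq_fintype_card]

theorem EXC_invariant {G Q : Type} [Group G] [Group Q] [Fintype Q] (χ : G → ℂ)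
    (hχ : ∀ g h, χ (h * g * h⁻¹) = χ g) : Ivt (κι G Q) (tpow Q χ) := by
  intro b x y h
  have h1 : (κι G Q y) * b = b * κι G Q x := by
    rw [h, inv_mul_cancel_right]
  have h2 := congrArg SemidirectProduct.left h1
  rw [SemidirectProduct.mul_left, SemidirectProduct.mul_left, SemidirectProduct.left_inl,
    SemidirectProduct.right_inl, SemidirectProduct.left_inl, map_one] at h2
  have h3 : ∀ t, y t = b.left t * x (b.right⁻¹ * t) * (b.left t)⁻¹ := by
    intro t
    have h4 := congrFun h2 t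
    have h5 : y t * b.left t = b.left t * x (b.right⁻¹ * t) := h4
    rw [← h5, mul_inv_cancel_right]
  unfold tpow
  have h6 : ∏ t, χ (y t) = ∏ t, χ (x (b.right⁻¹ * t)) :=
    Finset.prod_congr rfl fun t _ => by rw [h3 t, hχ]
  rw [h6]
  exact Fintype.prod_equiv (Equiv.mulLeft b.right⁻¹) _ _ (fun t => rfl)

theorem EXC_card {G Q : Type} [Group G] [Group Q] :
    Nat.card (Wr G Q) = Nat.card Q * Nat.card (Q → G) := by
  rw [Nat.card_congr SemidirectProduct.equivProd, Nat.card_prod, mul_comm]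

theorem EXC_pi_card {G Q : Type} [Finite G] [Fintype Q] :
    Nat.card (Q → G) = Nat.card G ^ Nat.card Q := by
  rw [Nat.card_fun]

theorem EXC (hTIR : TIR_stmt) (hCLA : CLA_stmt) : EXC_stmt := by
  intro p hp G Q _ _ _ _ hq hqp χ hχ
  have : Fact p.Prime := ⟨hp⟩
  obtain ⟨⟨n, hn, hn1⟩, hcl⟩ := (IRF G).2 χ hχ
  have hcardG : Nat.card G ≠ 0 := Nat.card_pos.ne'
  have hirr : tpow Q χ ∈ Irr (Q → G) :=
    (hTIR Q (fun _ => G) (tpow Q χ)).2 ⟨fun _ => χ, fun _ => hχ, rfl⟩
  have hK : padicValNat p (Nat.card (Q → G)) = Nat.card Q * padicValNat p (Nat.card G) := by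
    rw [EXC_pi_card, padicValNat.pow]
  have hd : ∀ d₀, Defc p χ d₀ → ∃ m : ℕ, χ 1 ^ Nat.card Q = ((m : ℕ) : ℂ) ∧
      padicValNat p m + Nat.card Q * d₀ = padicValNat p (Nat.card (Q → G)) := by
    rintro d₀ ⟨m, hm, hd⟩
    have hm0 : m ≠ 0 := by
      intro h
      rw [h, Nat.cast_zero] at hm
      rw [hm] at hn1
      exact hn.ne (by exact_mod_cast hn1)
    refine ⟨m ^ Nat.card Q, by rw [hm, Nat.cast_pow], ?_⟩
    rw [hK, ← hd, padicValNat.pow, mul_add]
  refine ⟨hirr, ?_, ?_⟩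
  · intro d₀ h
    obtain ⟨m, hm, h2⟩ := hd d₀ h
    exact ⟨m, (EXC_tpow_one Q χ).trans hm, h2⟩
  · have : Finite (Wr G Q) := Finite.of_equiv _ SemidirectProduct.equivProd.symm
    have hnor : (κι G Q).range.Normal := by
      have : (κι G Q).range = (SemidirectProduct.rightHom (φ := shift G Q)).ker :=
        SemidirectProduct.range_inl_eq_ker_rightHom
      rw [this]
      infer_instance
    obtain ⟨h1, h2, -⟩ := hCLA (Q → G) (Wr G Q) (κι G Q) SemidirectProduct.inl_injective hnor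
      (Nat.card Q) hq EXC_card (tpow Q χ) hirr (EXC_invariant χ (fun g h => hcl g h))
    have hne : {φ | φ ∈ Irr (Wr G Q) ∧ Ovr (κι G Q) φ (tpow Q χ)}.Nonempty := by
      rw [Set.nonempty_iff_ne_empty]
      intro he
      rw [he, Set.ncard_empty] at h2
      exact hq.pos.ne h2
    obtain ⟨χ', hχ', hov⟩ := hne
    have hext := h1 χ' hχ' hov
    refine ⟨χ', hχ', hext, ?_⟩
    intro d₀ h
    obtain ⟨m, hm, h3⟩ := hd d₀ h
    refine ⟨m, ?_, ?_⟩
    · have h4 := hext 1
      rw [map_one, EXC_tpow_one, hm] at h4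
      exact h4
    · have hqv : padicValNat p (Nat.card Q) = 0 := by
        apply padicValNat.eq_zero_of_not_dvd
        intro hdvd
        exact hqp ((Nat.prime_dvd_prime_iff_eq hp hq).1 hdvd).symm
      have : Nonempty G := ⟨1⟩
      have hKne : Nat.card (Q → G) ≠ 0 := Nat.card_pos.ne'
      rw [EXC_card, padicValNat.mul hq.ne_zero hKne, hqv, zero_add]
      exact h3

end Pool.Agent.DD
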